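import Pool.Agent.Q191.Beam.Final

set_option autoImplicit false

namespace Pool.Agent.Results.MP_55ecfc_an.OneTroughedEven

open Q191.Beam

/-- For `0 < c² < 2` and every `ξ < 1` (in particular for all `ξ ∈ [0, c⁴/4)`), every one-troughed
travelling wave of the piecewise-linear beam equation is even about some point. -/
theorem result (c ξ : ℝ) (hc0 : 0 < c ^ 2) (hc2 : c ^ 2 < 2) (hξ : ξ < 1) (z : ℝ → ℝ)
    (hz : IsWave c ξ z) (ht : OneTroughed z) : IsEven z :=
  even_of_oneTroughed hc0 hc2 hξ hz ht

end Pool.Agent.Results.MP_55ecfc_an.OneTroughedEven
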